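import Pool.Agent.H40.Zr6

set_option autoImplicit false

namespace Pool.Agent.Results.MP_dae09c_lc.Yes

open Pool.Agent.H40.Bspt Pool.Agent.H40.Jz

theorem result (M : Type) (E : M → M → Prop) (h : IsZF E) (ℛ : Reals E) (X T : M)
    (t : IsTop E X T) (c : Compact E X T) (t2 : T2 E X T) (q : QMetrizable ℛ X T) :
    Metrizable ℛ X T := Pool.Agent.H40.Zt.qmetr h t c t2 q

end Pool.Agent.Results.MP_dae09c_lc.Yes
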